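import Mathlib
import Pool.Agent.Lib.MP_e49cd5_nt.TwMain

set_option autoImplicit false

namespace Pool.Agent.Results.MP_e49cd5_nt.NoInvariant

/-- A Boolean combination of semilinear sets and polynomial inequalities that contains an orbit
contains a start whose orbit meets the target. -/
theorem result (a b : ℕ → ℤ) (a_ini : -2 ≤ a 0) (b_ini : 0 ≤ b 0)
    (a_rec : ∀ n, a (n + 1) = if b n / 2 < a n then a n - b n / 2 - 3 else 3 * a n + 5)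
    (b_rec : ∀ n, b (n + 1) = if b n / 2 < a n then 3 * ((b n + 1) / 2) + 6 else b n - 2 * a n)
    (I : Set (ℤ × ℤ))
    (hI : I ∈ BooleanSubalgebra.closure ({s : Set (ℤ × ℤ) | IsSemilinearSet s} ∪
      {s : Set (ℤ × ℤ) | ∃ f : MvPolynomial (Fin 2) ℝ,
        s = {p | 0 < MvPolynomial.eval ![(p.1 : ℝ), (p.2 : ℝ)] f}}))
    (orb : ∀ n, (a n, b n) ∈ I) :
    ∃ c d : ℕ → ℤ, (c 0, d 0) ∈ I ∧ -2 ≤ c 0 ∧ 0 ≤ d 0 ∧
      (∀ n, c (n + 1) = if d n / 2 < c n then c n - d n / 2 - 3 else 3 * c n + 5) ∧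
      (∀ n, d (n + 1) = if d n / 2 < c n then 3 * ((d n + 1) / 2) + 6 else d n - 2 * c n) ∧
      ∃ i, c i = d i / 2 + 1 := by
  obtain ⟨q, hq, h1, h2, h3⟩ :=
    (Pool.Agent.Lib.MP_e49cd5_nt.Tw.Tame.closure hI).hit a b a_ini b_ini a_rec b_rec orb
  exact ⟨_, _, hq, h1, h2, Pool.Agent.Lib.MP_e49cd5_nt.Tw.iter_fst q,
    Pool.Agent.Lib.MP_e49cd5_nt.Tw.iter_snd q, h3⟩

end Pool.Agent.Results.MP_e49cd5_nt.NoInvariant
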