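import Mathlib
import Pool.Agent.Lib.MP_e49cd5_nt.DnF
import Pool.Agent.Lib.MP_e49cd5_nt.NoPer

set_option autoImplicit false

namespace Pool.Agent.Results.MP_e49cd5_nt.PosEntropy

/-- For every start with `a 0 ≥ -2`, `b 0 ≥ 0` and every set `W` of fewer than `2 ^ (L / 200)`
words of length `L`, the times whose word of rules is outside `W` have lower density at least
`10 ^ (-6)`. -/
theorem result (a b : ℕ → ℤ) (a_ini : -2 ≤ a 0) (b_ini : 0 ≤ b 0)
    (a_rec : ∀ n, a (n + 1) = if b n / 2 < a n then a n - b n / 2 - 3 else 3 * a n + 5)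
    (b_rec : ∀ n, b (n + 1) = if b n / 2 < a n then 3 * ((b n + 1) / 2) + 6 else b n - 2 * a n)
    (L : ℕ) (W : Set (Fin L → Prop)) (hW : W.ncard ^ 200 < 2 ^ L) :
    ∃ N₀ : ℕ, ∀ N : ℕ, N₀ ≤ N →
      N ≤ 10 ^ 6 * {n : ℕ | n < N ∧ (fun i : Fin L => b (n + i) / 2 < a (n + i)) ∉ W}.ncard := by
  classical
  obtain ⟨V, rfl⟩ := W.toFinite.exists_finset_coe
  rw [Set.ncard_coe_finset] at hW
  obtain ⟨N₀, h⟩ := Pool.Agent.Lib.MP_e49cd5_nt.En.dens ⟨a_ini, b_ini, a_rec, b_rec⟩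
    (Pool.Agent.Lib.MP_e49cd5_nt.noPeriod a b a_ini b_ini a_rec b_rec) L V hW
  refine ⟨N₀, fun N hN => (h N hN).trans_eq ?_⟩
  rw [← Set.ncard_coe_finset]
  congr 2
  ext n
  simp

/-- The sequence of the rules applied has at least `2 ^ (L / 200)` words of length `L`. -/
theorem entropy (a b : ℕ → ℤ) (a_ini : -2 ≤ a 0) (b_ini : 0 ≤ b 0)
    (a_rec : ∀ n, a (n + 1) = if b n / 2 < a n then a n - b n / 2 - 3 else 3 * a n + 5)
    (b_rec : ∀ n, b (n + 1) = if b n / 2 < a n then 3 * ((b n + 1) / 2) + 6 else b n - 2 * a n)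
    (L : ℕ) :
    2 ^ L ≤ (Set.range fun n : ℕ => fun i : Fin L => b (n + i) / 2 < a (n + i)).ncard ^ 200 := by
  refine not_lt.1 fun c => ?_
  obtain ⟨N, h⟩ := result a b a_ini b_ini a_rec b_rec L _ c
  simpa using h (N + 1) N.le_succ

/-- Each of the two rules has lower frequency at least `10 ^ (-6)`. -/
theorem frequency (a b : ℕ → ℤ) (a_ini : -2 ≤ a 0) (b_ini : 0 ≤ b 0)
    (a_rec : ∀ n, a (n + 1) = if b n / 2 < a n then a n - b n / 2 - 3 else 3 * a n + 5)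
    (b_rec : ∀ n, b (n + 1) = if b n / 2 < a n then 3 * ((b n + 1) / 2) + 6 else b n - 2 * a n) :
    ∃ N₀ : ℕ, ∀ N : ℕ, N₀ ≤ N → N ≤ 10 ^ 6 * {n : ℕ | n < N ∧ b n / 2 < a n}.ncard ∧
      N ≤ 10 ^ 6 * {n : ℕ | n < N ∧ a n ≤ b n / 2}.ncard := by
  obtain ⟨M, h⟩ := result a b a_ini b_ini a_rec b_rec 1 {fun _ => False} (by simp)
  obtain ⟨M', h'⟩ := result a b a_ini b_ini a_rec b_rec 1 {fun _ => True} (by simp)
  refine ⟨M + M', fun N hN => ⟨?_, ?_⟩⟩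
  · simpa [funext_iff] using h N (by omega)
  · simpa [funext_iff] using h' N (by omega)

end Pool.Agent.Results.MP_e49cd5_nt.PosEntropy
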